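import Mathlib
import Pool.Agent.Y742.SF.GenT
import Pool.Agent.Y215.SK.SubK

/-!
Linear forms over a number field as linear forms over the integers.
-/

set_option autoImplicit false
set_option linter.unusedSectionVars false
set_option linter.unusedSimpArgs false

open Finset Filter Topology

namespace Pool.Agent.Y742.SF

open NumberField
open Pool.Agent.TH286.GT
open Pool.Agent.TH286.GT.GrowD (sg sg_coe sg_inj)
open Pool.Agent.TH717.ST
open Pool.Agent.Y215.SK

variable {K : Type} [Field K] [NumberField K] {q m : ℕ}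

/-- the values of the forms -/
noncomputable def phi (Φ : Fin q → Fin m → 𝓞 K) (X : Fin m → 𝓞 K) (i : Fin q) : 𝓞 K :=
  ∑ j, Φ i j * X j

theorem phi_mul (Φ : Fin q → Fin m → 𝓞 K) (lam : 𝓞 K) (X : Fin m → 𝓞 K) (i : Fin q) :
    phi Φ (fun j => lam * X j) i = lam * phi Φ X i := by
  unfold phi
  rw [Finset.mul_sum]
  exact Finset.sum_congr rfl fun j _ => by ring

/-- the vectors spanning the image -/
noncomputable def bv (Φ : Fin q → Fin m → 𝓞 K) (p : Fin (m * Module.finrank ℤ (𝓞 K))) :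
    Fin (q * Module.finrank ℤ (𝓞 K)) → ℤ :=
  cv (fun i => Φ i (ec K m p).1 * om K (ec K m p).2)

theorem vec_sum (X : Fin m → 𝓞 K) (j : Fin m) :
    X j = ∑ p : Fin (m * Module.finrank ℤ (𝓞 K)), if (ec K m p).1 = j then
      cv X p • om K (ec K m p).2 else 0 := by
  classical
  rw [← Equiv.sum_comp (ec K m).symm, Fintype.sum_prod_type]
  rw [Finset.sum_eq_single j]
  · conv_lhs => rw [← vc_cv X]
    unfold vc
    refine Finset.sum_congr rfl fun b _ => ?_
    rw [Equiv.apply_symm_apply, if_pos rfl]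
  · intro i _ hi
    refine Finset.sum_eq_zero fun b _ => ?_
    rw [Equiv.apply_symm_apply, if_neg hi]
  · intro h
    exact absurd (Finset.mem_univ _) h

theorem phi_sum (Φ : Fin q → Fin m → 𝓞 K) (X : Fin m → 𝓞 K) (i : Fin q) :
    phi Φ X i = ∑ p, cv X p • (Φ i (ec K m p).1 * om K (ec K m p).2) := by
  classical
  unfold phi
  have h1 : ∀ j, Φ i j * X j = ∑ p : Fin (m * Module.finrank ℤ (𝓞 K)),
      if (ec K m p).1 = j then cv X p • (Φ i (ec K m p).1 * om K (ec K m p).2) else 0 := by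
    intro j
    conv_lhs => rw [vec_sum X j]
    rw [Finset.mul_sum]
    refine Finset.sum_congr rfl fun p _ => ?_
    split_ifs with h
    · rw [h]
      exact mul_smul_comm _ _ _
    · rw [mul_zero]
  rw [Finset.sum_congr rfl fun j _ => h1 j, Finset.sum_comm]
  refine Finset.sum_congr rfl fun p _ => ?_
  rw [Finset.sum_ite_eq]
  simp

theorem cv_phi (Φ : Fin q → Fin m → 𝓞 K) (X : Fin m → 𝓞 K)
    (l : Fin (q * Module.finrank ℤ (𝓞 K))) :
    cv (phi Φ X) l = ∑ p, cv X p * bv Φ p l := by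
  unfold bv
  have h1 : cv (phi Φ X) l = (om K).repr (phi Φ X (ec K q l).1) (ec K q l).2 := rfl
  rw [h1, phi_sum, map_sum, Finsupp.finsetSum_apply]
  refine Finset.sum_congr rfl fun p _ => ?_
  rw [map_smul, Finsupp.smul_apply, smul_eq_mul]
  rfl

theorem phi_inj (Φ : Fin q → Fin m → 𝓞 K) (I : Fin m → Fin q)
    (hI : (Matrix.of fun a j => Φ (I a) j).det ≠ 0) (X : Fin m → 𝓞 K) (h : phi Φ X = 0) :
    X = 0 := by
  classical
  by_contra hX
  apply hI
  rw [← Matrix.exists_mulVec_eq_zero_iff]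
  refine ⟨X, hX, ?_⟩
  funext a
  exact congrFun h (I a)

theorem bv_indep (Φ : Fin q → Fin m → 𝓞 K) (I : Fin m → Fin q)
    (hI : (Matrix.of fun a j => Φ (I a) j).det ≠ 0) : LinearIndependent ℤ (bv Φ) := by
  classical
  rw [Fintype.linearIndependent_iff]
  intro g hg p
  have h1 : phi Φ (vc g) = 0 := by
    apply cv_inj
    funext l
    rw [cv_phi, cv_vc]
    have h2 := congrFun hg l
    rw [Finset.sum_apply] at h2
    simp only [Pi.smul_apply, smul_eq_mul, Pi.zero_apply] at h2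
    rw [h2]
    unfold cv
    simp
  have h2 := phi_inj Φ I hI _ h1
  have h3 : g = 0 := by
    rw [← cv_vc (K := K) g, h2]
    funext l
    unfold cv
    simp
  rw [h3]
  rfl

variable [IsGalois ℚ K]

/-- a matrix of forms for every conjugation -/
noncomputable def GW (G : (K ≃ₐ[ℚ] K) → Fin m → Fin m → 𝓞 K) :
    Matrix (Fin (m * Module.finrank ℤ (𝓞 K))) (Fin (m * Module.finrank ℤ (𝓞 K))) (𝓞 K) :=
  Matrix.of fun l p => sg (er K m l).2
    (G (er K m l).2 (er K m l).1 (ec K m p).1 * om K (ec K m p).2)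

theorem GW_det (G : (K ≃ₐ[ℚ] K) → Fin m → Fin m → 𝓞 K)
    (hG : ∀ σ, (Matrix.of (G σ)).det ≠ 0) : (GW G).det ≠ 0 := by
  classical
  intro hdet
  obtain ⟨v, hv, hv0⟩ := Matrix.exists_vecMul_eq_zero_iff.2 hdet
  apply hv
  have h1 : ∀ (j : Fin m) (b : Fin (Module.finrank ℤ (𝓞 K))),
      ∑ σ, (∑ i, v ((er K m).symm (i, σ)) * sg σ (G σ i j)) * sg σ (om K b) = 0 := by
    intro j b
    have h2 := congrFun hv0 ((ec K m).symm (j, b))
    simp only [Matrix.vecMul, dotProduct, GW, Matrix.of_apply, Pi.zero_apply] at h2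
    rw [← Equiv.sum_comp (er K m).symm, Fintype.sum_prod_type, Finset.sum_comm] at h2
    rw [← h2]
    refine Finset.sum_congr rfl fun σ _ => ?_
    rw [Finset.sum_mul]
    refine Finset.sum_congr rfl fun i _ => ?_
    rw [Equiv.apply_symm_apply, Equiv.apply_symm_apply, map_mul]
    ring
  have h3 : ∀ σ, (fun i => v ((er K m).symm (i, σ))) = 0 := by
    intro σ
    by_contra hne
    have h4 : ((Matrix.of (G σ)).map (sg σ)).det = 0 := by
      rw [← Matrix.exists_vecMul_eq_zero_iff]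
      refine ⟨_, hne, ?_⟩
      funext j
      have h3 := conj_indep _ (h1 j)
      exact congrFun h3 σ
    have h5 : ((Matrix.of (G σ)).map (sg σ)).det = sg σ (Matrix.of (G σ)).det :=
      ((sg σ).map_det _).symm
    rw [h5] at h4
    exact hG σ (sg_inj σ (by rw [h4, map_zero]))
  funext l
  obtain ⟨⟨i, σ⟩, rfl⟩ := (er K m).symm.surjective l
  exact congrFun (h3 σ) i

theorem GW_apply (G : (K ≃ₐ[ℚ] K) → Fin m → Fin m → 𝓞 K) (X : Fin m → 𝓞 K)
    (l : Fin (m * Module.finrank ℤ (𝓞 K))) :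
    ∑ p, GW G l p * ((cv X p : ℤ) : 𝓞 K) =
      sg (er K m l).2 (∑ j, G (er K m l).2 (er K m l).1 j * X j) := by
  classical
  unfold GW
  simp only [Matrix.of_apply]
  have h1 := phi_sum (fun (_ : Fin 1) j => G (er K m l).2 (er K m l).1 j) X 0
  unfold phi at h1
  rw [h1, map_sum]
  refine Finset.sum_congr rfl fun p _ => ?_
  rw [map_zsmul, zsmul_eq_mul, mul_comm]

/-- the forms for the lattices on the image -/
theorem Nm_bv (Φ : Fin q → Fin m → 𝓞 K) (l : Fin (q * Module.finrank ℤ (𝓞 K)))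
    (p : Fin (m * Module.finrank ℤ (𝓞 K))) :
    Nm (Mt K q) (bv Φ) l p =
      sg (er K q l).2 (Φ (er K q l).1 (ec K m p).1 * om K (ec K m p).2) := by
  unfold Nm
  simp only [Matrix.of_apply]
  rw [Mt_apply]
  unfold bv
  rw [vc_cv]

/-- the selection of rows -/
noncomputable def sJ (J : (K ≃ₐ[ℚ] K) → Fin m → Fin q) (l : Fin (m * Module.finrank ℤ (𝓞 K))) :
    Fin (q * Module.finrank ℤ (𝓞 K)) :=
  (er K q).symm (J (er K m l).2 (er K m l).1, (er K m l).2)

theorem sJ_mem (Φ : Fin q → Fin m → 𝓞 K) (J : (K ≃ₐ[ℚ] K) → Fin m → Fin q)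
    (hJ : ∀ σ, (Matrix.of fun a j => Φ (J σ a) j).det ≠ 0) :
    sJ J ∈ sel (Nm (Mt K q) (bv Φ)) := by
  classical
  rw [mem_sel]
  have h1 : (Nm (Mt K q) (bv Φ)).submatrix (sJ J) id = GW (fun σ a => Φ (J σ a)) := by
    ext1 l p
    rw [Matrix.submatrix_apply, id, Nm_bv]
    unfold sJ GW
    rw [Equiv.apply_symm_apply]
    rfl
  rw [h1]
  exact GW_det _ hJ

theorem pr_sJ (J : (K ≃ₐ[ℚ] K) → Fin m → Fin q) (u : Fin q → 𝓞 K) :
    pr (fun l => sg (er K q l).2 (u (er K q l).1)) (sJ J) = ∏ σ, ∏ a, sg σ (u (J σ a)) := by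
  classical
  unfold pr
  rw [← Equiv.prod_comp (er K m).symm, Fintype.prod_prod_type, Finset.prod_comm]
  refine Finset.prod_congr rfl fun σ _ => Finset.prod_congr rfl fun a _ => ?_
  simp only [sJ, Equiv.apply_symm_apply]

/-- the lower bound for the rate -/
theorem rate_lower {s : ℕ} (Φ : Fin q → Fin m → 𝓞 K) (U : Fin s → 𝓞 K) (hU : ∀ v, U v ≠ 0)
    (hUc : ∀ v w, v ≠ w → IsCoprime (Ideal.span {U v}) (Ideal.span {U w}))
    (π : (K ≃ₐ[ℚ] K) → Equiv.Perm (Fin s))
    (hUπ : ∀ σ v, Ideal.span {sg σ (U v)} = Ideal.span {U (π σ v)})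
    (J : Fin s → Fin m → Fin q)
    (hJ : ∀ v, (Matrix.of fun a j => Φ (J v a) j).det ≠ 0)
    (k : Fin q → Fin s → ℕ) :
    ∑ v, ∑ a, (k (J v a) v : ℝ) * Real.log (Ideal.absNorm (Ideal.span {U v}) : ℕ) ≤
      rate (sel (Nm (Mt K q) (bv Φ))) (pr (fun l => sg (er K q l).2 (uu U k (er K q l).1))) := by
  classical
  set al : Fin (q * Module.finrank ℤ (𝓞 K)) → 𝓞 K :=
    fun l => sg (er K q l).2 (uu U k (er K q l).1) with hal
  have hal0 : ∀ l, al l ≠ 0 := by
    intro l h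
    exact uu_ne U hU k _ (sg_inj _ (by rw [map_zero]; exact h))
  set E : Fin s → ℕ := fun w => ∑ σ, ∑ a, k (J ((π σ).symm w) a) ((π σ).symm w) with hE
  set L := lc (sel (Nm (Mt K q) (bv Φ))) (pr al) with hL
  have hL0 : L ≠ ⊥ := lc_ne _ _ (fun s' _ => Finset.prod_ne_zero_iff.2 fun p _ => hal0 _)
  have hdiv : ∀ w, (Ideal.span {U w}) ^ (E w) ∣ L := by
    intro w
    have h1 : sJ (fun σ => J ((π σ).symm w)) ∈ sel (Nm (Mt K q) (bv Φ)) :=
      sJ_mem Φ _ (fun σ => hJ _)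
    have h2 : L ≤ Ideal.span {pr al (sJ fun σ => J ((π σ).symm w))} := Finset.inf_le h1
    refine Dvd.dvd.trans ?_ (Ideal.dvd_iff_le.2 h2)
    rw [hal, pr_sJ, ← Ideal.prod_span_singleton, hE, ← Finset.prod_pow_eq_pow_sum]
    refine Finset.prod_dvd_prod_of_dvd _ _ fun σ _ => ?_
    rw [← Ideal.prod_span_singleton, ← Finset.prod_pow_eq_pow_sum]
    refine Finset.prod_dvd_prod_of_dvd _ _ fun a _ => ?_
    have h3 : (sg σ (U ((π σ).symm w))) ^ k (J ((π σ).symm w) a) ((π σ).symm w) ∣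
        sg σ (uu U k (J ((π σ).symm w) a)) := by
      unfold uu
      rw [map_prod, ← map_pow]
      exact Finset.dvd_prod_of_mem (fun v => sg σ (U v ^ k (J ((π σ).symm w) a) v))
        (Finset.mem_univ _)
    have h4 : Ideal.span {U w} = Ideal.span {sg σ (U ((π σ).symm w))} := by
      rw [hUπ, Equiv.apply_symm_apply]
    rw [h4, Ideal.span_singleton_pow]
    exact Ideal.dvd_iff_le.2 (Ideal.span_singleton_le_span_singleton.2 h3)
  have hprod : ∏ w, (Ideal.span {U w}) ^ (E w) ∣ L := by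
    refine Finset.prod_dvd_of_coprime ?_ (fun w _ => hdiv w)
    intro v _ w _ hvw
    exact (hUc v w hvw).pow
  have hdvd := map_dvd Ideal.absNorm hprod
  have hle := Nat.le_of_dvd (Nat.pos_of_ne_zero (by
    rw [Ne, Ideal.absNorm_eq_zero_iff]
    exact hL0)) hdvd
  have hn1 : ∀ v, 1 ≤ Ideal.absNorm (Ideal.span {U v}) := by
    intro v
    refine one_le_absNorm ?_
    rw [Ne, Ideal.span_singleton_eq_bot]
    exact hU v
  have hnπ : ∀ σ v, Ideal.absNorm (Ideal.span {U (π σ v)}) = Ideal.absNorm (Ideal.span {U v}) := by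
    intro σ v
    rw [← hUπ]
    have h1 : ∀ x : 𝓞 K, Ideal.absNorm (Ideal.span {x}) = (Algebra.norm ℤ x).natAbs :=
      fun x => Ideal.absNorm_span_singleton x
    rw [h1, h1]
    have h2 : Algebra.norm ℤ (sg σ (U v)) = Algebra.norm ℤ (U v) := by
      have h3 : ((Algebra.norm ℤ (sg σ (U v)) : ℤ) : ℚ) = ((Algebra.norm ℤ (U v) : ℤ) : ℚ) := by
        have e1 := Algebra.coe_norm_int (sg σ (U v))
        have e2 := Algebra.coe_norm_int (U v)
        rw [e1, e2, sg_coe]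
        exact Algebra.norm_eq_of_algEquiv σ _
      exact_mod_cast h3
    rw [h2]
  have hlog : ∑ w, (E w : ℝ) * Real.log (Ideal.absNorm (Ideal.span {U w}) : ℕ) ≤
      Real.log (Ideal.absNorm L : ℕ) := by
    have h1 : ((Ideal.absNorm (∏ w, (Ideal.span {U w}) ^ (E w)) : ℕ) : ℝ) =
        ∏ w, ((Ideal.absNorm (Ideal.span {U w}) : ℕ) : ℝ) ^ E w := by
      rw [map_prod]
      push_cast
      exact Finset.prod_congr rfl fun w _ => by rw [map_pow]; push_cast; rfl
    have h2 : Real.log ((Ideal.absNorm (∏ w, (Ideal.span {U w}) ^ (E w)) : ℕ) : ℝ) =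
        ∑ w, (E w : ℝ) * Real.log (Ideal.absNorm (Ideal.span {U w}) : ℕ) := by
      rw [h1, Real.log_prod]
      · exact Finset.sum_congr rfl fun w _ => by rw [Real.log_pow]
      · intro w _
        have := hn1 w
        positivity
    rw [← h2]
    refine Real.log_le_log ?_ (by exact_mod_cast hle)
    rw [h1]
    refine Finset.prod_pos fun w _ => ?_
    have := hn1 w
    positivity
  unfold rate
  have hfr : (0 : ℝ) < Module.finrank ℚ K := by exact_mod_cast Module.finrank_pos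
  rw [le_div_iff₀ hfr]
  refine le_trans (le_of_eq ?_) hlog
  -- reindexing
  have hcard : ((Fintype.card (K ≃ₐ[ℚ] K) : ℕ) : ℝ) = Module.finrank ℚ K := by
    rw [card_aut, RingOfIntegers.rank]
  have h3 : ∀ σ : K ≃ₐ[ℚ] K, ∑ w, ((∑ a, k (J ((π σ).symm w) a) ((π σ).symm w) : ℕ) : ℝ) *
      Real.log (Ideal.absNorm (Ideal.span {U w}) : ℕ) =
      ∑ v, ∑ a, (k (J v a) v : ℝ) * Real.log (Ideal.absNorm (Ideal.span {U v}) : ℕ) := by
    intro σ
    rw [← Equiv.sum_comp (π σ)]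
    refine Finset.sum_congr rfl fun v _ => ?_
    rw [Equiv.symm_apply_apply, hnπ]
    push_cast
    rw [Finset.sum_mul]
  have h4 : ∑ w, (E w : ℝ) * Real.log (Ideal.absNorm (Ideal.span {U w}) : ℕ) =
      ∑ σ : K ≃ₐ[ℚ] K, ∑ v, ∑ a, (k (J v a) v : ℝ) *
        Real.log (Ideal.absNorm (Ideal.span {U v}) : ℕ) := by
    rw [← Finset.sum_congr rfl fun σ _ => h3 σ, Finset.sum_comm]
    refine Finset.sum_congr rfl fun w _ => ?_
    rw [← Finset.sum_mul, hE]
    push_cast
    rfl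
  rw [h4, Finset.sum_const, Finset.card_univ, nsmul_eq_mul, hcard, mul_comm]

end Pool.Agent.Y742.SF
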