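import Mathlib
import Pool.Agent.Y742.SF.FormK

/-!
The subspace theorem over a number field for one pattern of linear forms.
-/

set_option autoImplicit false
set_option linter.unusedSectionVars false
set_option linter.unusedSimpArgs false

open Finset Filter Topology

namespace Pool.Agent.Y742.SF

open NumberField
open Pool.Agent.TH286.GT
open Pool.Agent.TH286.GT.GrowD (sg sg_coe sg_inj)
open Pool.Agent.TH717.ST
open Pool.Agent.Y215.SK

variable {K : Type} [Field K] [NumberField K] [IsGalois ℚ K] {q m : ℕ}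

theorem norm_eq_prod (ψ : K →+* ℂ) (y : 𝓞 K) (hy : y ≠ 0) :
    Real.log |((Algebra.norm ℤ y : ℤ) : ℝ)| = ∑ σ : K ≃ₐ[ℚ] K, Real.log ‖ph ψ (sg σ y)‖ := by
  rw [norm_prod_auto ψ y, Real.log_prod]
  · rfl
  · intro σ _ h
    rw [norm_eq_zero] at h
    have h1 : ph ψ (sg σ y) = 0 := h
    have h2 := ph_inj ψ _ h1
    exact hy (sg_inj σ (by rw [h2, map_zero]))

theorem norm_log_nonneg (y : 𝓞 K) (hy : y ≠ 0) :
    0 ≤ Real.log |((Algebra.norm ℤ y : ℤ) : ℝ)| := by
  apply Real.log_nonneg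
  have := Int.one_le_abs (Algebra.norm_ne_zero_iff.2 hy : Algebra.norm ℤ y ≠ 0)
  exact_mod_cast this

theorem sum_er (g : Fin m → (K ≃ₐ[ℚ] K) → ℝ) :
    ∑ l : Fin (m * Module.finrank ℤ (𝓞 K)), g (er K m l).1 (er K m l).2 = ∑ σ, ∑ a, g a σ := by
  rw [← Equiv.sum_comp (er K m).symm, Fintype.sum_prod_type, Finset.sum_comm]
  refine Finset.sum_congr rfl fun σ _ => Finset.sum_congr rfl fun a _ => ?_
  rw [Equiv.apply_symm_apply]

theorem patJ (ψ : K →+* ℂ) (cj : K ≃ₐ[ℚ] K) (hcj : ∀ x, ψ (cj x) = (starRingEnd ℂ) (ψ x))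
    (iK : 𝓞 K) (hi : ψ (iK : K) = Complex.I) {s : ℕ} (hm : 1 ≤ m)
    (Φ : Fin q → Fin m → 𝓞 K) (U : Fin s → 𝓞 K) (hU : ∀ v, U v ≠ 0)
    (hUc : ∀ v w, v ≠ w → IsCoprime (Ideal.span {U v}) (Ideal.span {U w}))
    (π : (K ≃ₐ[ℚ] K) → Equiv.Perm (Fin s))
    (hUπ : ∀ σ v, Ideal.span {sg σ (U v)} = Ideal.span {U (π σ v)})
    (I : (K ≃ₐ[ℚ] K) → Fin m → Fin q)
    (hI : ∀ σ, (Matrix.of fun a j => Φ (I σ a) j).det ≠ 0)
    (J : Fin s → Fin m → Fin q)
    (hJ : ∀ v, (Matrix.of fun a j => Φ (J v a) j).det ≠ 0)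
    (c η : ℝ) (hc : 0 ≤ c) (hη : 0 < η) (N : ℕ → ℝ) (hN : Tendsto N atTop atTop)
    (hN0 : ∀ t, 0 ≤ N t)
    (k : ℕ → Fin q → Fin s → ℕ) (X : ℕ → Fin m → 𝓞 K) (lamb : ℕ → 𝓞 K)
    (hlamb : ∀ t, lamb t ≠ 0)
    (δ : ℝ) (hδ : 0 ≤ δ) (hδη : ((m * Module.finrank ℤ (𝓞 K) : ℕ) : ℝ) * δ ≤ η / 2)
    (hlam : ∀ t σ, ‖ph ψ (sg σ (lamb t))‖ ≤ Real.exp (δ * N t))
    (hk : ∀ t i, uu U (k t) i ∣ phi Φ (X t) i)
    (hY : ∀ t i, phi Φ (X t) i ≠ 0)
    (hsize : ∀ t i σ, Real.log ‖ph ψ (sg σ (phi Φ (X t) i))‖ ≤ c * N t)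
    (hsum : ∀ t, ∑ σ, ∑ a, Real.log ‖ph ψ (sg σ (phi Φ (X t) (I σ a)))‖ + η * N t ≤
      ∑ v, ∑ a, (k t (J v a) v : ℝ) * Real.log (Ideal.absNorm (Ideal.span {U v}) : ℕ)) :
    ∃ f : Fin (q * Module.finrank ℤ (𝓞 K)) → ℤ, (∃ p, ∑ l, f l * bv Φ p l ≠ 0) ∧
      ∃ᶠ t in atTop, ∑ l, f l * cv (phi Φ (fun j => lamb t * X t j)) l = 0 := by
  classical
  obtain ⟨D, hD⟩ : ∃ D : ℝ, D = ((Module.finrank ℤ (𝓞 K) : ℕ) : ℝ) := ⟨_, rfl⟩
  have hD0 : 0 ≤ D := by rw [hD]; exact Nat.cast_nonneg _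
  have hcard : ((Fintype.card (K ≃ₐ[ℚ] K) : ℕ) : ℝ) = D := by rw [card_aut, hD]
  -- lower bounds
  have hlow : ∀ t i σ, -(D * (c * N t)) ≤ Real.log ‖ph ψ (sg σ (phi Φ (X t) i))‖ := by
    intro t i σ
    have h1 := norm_log_nonneg _ (hY t i)
    rw [norm_eq_prod ψ _ (hY t i), ← Finset.add_sum_erase _ _ (Finset.mem_univ σ)] at h1
    have h2 : ∑ τ ∈ Finset.univ.erase σ, Real.log ‖ph ψ (sg τ (phi Φ (X t) i))‖ ≤
        ∑ τ ∈ Finset.univ.erase σ, c * N t := Finset.sum_le_sum fun τ _ => hsize t i τ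
    have h3 : ∑ τ ∈ Finset.univ.erase σ, c * N t ≤ D * (c * N t) := by
      refine (Finset.sum_le_sum_of_subset_of_nonneg (Finset.subset_univ _) fun _ _ _ =>
        mul_nonneg hc (hN0 t)).trans ?_
      rw [Finset.sum_const, Finset.card_univ, nsmul_eq_mul, hcard]
    linarith
  have hdet : ∀ t, Real.log |((Bt (uu U (k t))).det : ℝ)| ≤ q * (D * (c * N t)) := by
    intro t
    have hX : ∀ i σ, ‖ph ψ (sg σ (uu U (k t) i))‖ ≠ 0 := by
      intro i σ h
      rw [norm_eq_zero] at h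
      exact uu_ne U hU (k t) i (sg_inj σ (by rw [ph_inj ψ _ h, map_zero]))
    rw [det_abs ψ, Real.log_prod (fun l _ => hX _ _),
      sum_er (fun i σ => Real.log ‖ph ψ (sg σ (uu U (k t) i))‖), Finset.sum_comm]
    have h1 : ∀ i ∈ (Finset.univ : Finset (Fin q)),
        ∑ σ : K ≃ₐ[ℚ] K, Real.log ‖ph ψ (sg σ (uu U (k t) i))‖ ≤ D * (c * N t) := by
      intro i _
      rw [← norm_eq_prod ψ _ (uu_ne U hU (k t) i)]
      have h2 : Real.log |((Algebra.norm ℤ (uu U (k t) i) : ℤ) : ℝ)| ≤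
          Real.log |((Algebra.norm ℤ (phi Φ (X t) i) : ℤ) : ℝ)| := by
        have h3 := map_dvd (Algebra.norm ℤ) (hk t i)
        have h4 : |Algebra.norm ℤ (uu U (k t) i)| ≤ |Algebra.norm ℤ (phi Φ (X t) i)| :=
          Int.le_of_dvd (abs_pos.2 (Algebra.norm_ne_zero_iff.2 (hY t i))) ((abs_dvd_abs _ _).2 h3)
        refine Real.log_le_log ?_ (by exact_mod_cast h4)
        rw [abs_pos]
        exact_mod_cast (Algebra.norm_ne_zero_iff.2 (uu_ne U hU (k t) i))
      refine h2.trans ?_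
      rw [norm_eq_prod ψ _ (hY t i)]
      refine (Finset.sum_le_sum fun σ _ => hsize t i σ).trans ?_
      rw [Finset.sum_const, Finset.card_univ, nsmul_eq_mul, hcard]
    refine (Finset.sum_le_sum h1).trans ?_
    rw [Finset.sum_const, Finset.card_univ, Fintype.card_fin, nsmul_eq_mul]
  have hmD : 1 ≤ m * Module.finrank ℤ (𝓞 K) := Nat.mul_pos hm Module.finrank_pos
  set c1 : ℝ := D * c + c + δ + q * (D * c) with hc1
  have hc10 : 0 ≤ c1 := by rw [hc1]; positivity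
  have key := genT ψ cj hcj iK hi hmD (Mt K q) Mt_det (lamU U)
    (fun p l => by
      unfold lamU
      split_ifs
      · intro h
        exact hU _ (sg_inj _ (by rw [h, map_zero]))
      · exact one_ne_zero)
    (bv Φ) (bv_indep Φ (I 1) (hI 1)) (GW (fun σ a => Φ (I σ a))) (GW_det _ hI)
    c1 (η / 2) hc10 (by linarith) N hN
    (fun t p => k t (finProdFinEquiv.symm p).2 (finProdFinEquiv.symm p).1)
    (fun t => Bt (uu U (k t)))
    (by
      intro t
      refine ⟨Bt_det_ne _ (uu_ne U hU (k t)), ?_⟩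
      rw [bet_lamU]
      exact Mt_Bt _)
    (by
      intro t
      refine (hdet t).trans ?_
      have h1 : 0 ≤ D * c + c + δ := by positivity
      have h2 : q * (D * (c * N t)) = (q * (D * c)) * N t := by ring
      rw [h2]
      refine mul_le_mul_of_nonneg_right ?_ (hN0 t)
      rw [hc1]
      linarith)
    (fun t l => Real.log ‖ph ψ (sg (er K m l).2 (phi Φ (X t) (I (er K m l).2 (er K m l).1)))‖ +
      δ * N t)
    (by
      intro t l
      have h1 := hsize t (I (er K m l).2 (er K m l).1) (er K m l).2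
      have h2 := hlow t (I (er K m l).2 (er K m l).1) (er K m l).2
      have h3 : 0 ≤ δ * N t := mul_nonneg hδ (hN0 t)
      have h4 : 0 ≤ c * N t := mul_nonneg hc (hN0 t)
      have h5 : 0 ≤ D * (c * N t) := mul_nonneg hD0 h4
      have h6 : 0 ≤ q * (D * (c * N t)) := mul_nonneg (Nat.cast_nonneg _) h5
      have h7 : c1 * N t = D * (c * N t) + c * N t + δ * N t + q * (D * (c * N t)) := by
        rw [hc1]; ring
      rw [h7, abs_le]
      constructor <;> linarith)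
    (by
      intro t
      rw [bet_lamU]
      refine le_trans ?_ (rate_lower Φ U hU hUc π hUπ J hJ (k t))
      refine le_trans ?_ (hsum t)
      rw [Finset.sum_add_distrib, Finset.sum_const, Finset.card_univ, Fintype.card_fin,
        nsmul_eq_mul, sum_er (fun a σ => Real.log ‖ph ψ (sg σ (phi Φ (X t) (I σ a)))‖)]
      have h1 : ((m * Module.finrank ℤ (𝓞 K) : ℕ) : ℝ) * (δ * N t) ≤ η / 2 * N t := by
        rw [← mul_assoc]
        exact mul_le_mul_of_nonneg_right hδη (hN0 t)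
      linarith)
    (fun t => cv (fun j => lamb t * X t j)) (fun t => cv (phi Φ (fun j => lamb t * X t j)))
    (by
      intro t h
      have h1 : phi Φ (fun j => lamb t * X t j) = 0 := by
        apply cv_inj
        rw [h]
        funext l
        unfold cv
        simp
      have h2 := congrFun h1 (I 1 ⟨0, hm⟩)
      rw [phi_mul] at h2
      exact mul_ne_zero (hlamb t) (hY t _) h2)
    (fun t l => cv_phi Φ _ l)
    (by
      intro t
      choose w hw using hk t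
      refine ⟨cv (fun i => lamb t * w i), ?_⟩
      rw [Bt_mulVec, vc_cv]
      congr 1
      funext i
      rw [phi_mul, hw]
      ring)
    (by
      intro t l
      have h1 : ψ (∑ p, ((GW (fun σ a => Φ (I σ a)) l p : 𝓞 K) : K) *
          ((cv (fun j => lamb t * X t j) p : ℤ) : K)) =
          ph ψ (∑ p, GW (fun σ a => Φ (I σ a)) l p *
            ((cv (fun j => lamb t * X t j) p : ℤ) : 𝓞 K)) := by
        unfold ph
        rw [RingHom.comp_apply]
        congr 1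
        rw [map_sum]
        refine Finset.sum_congr rfl fun p _ => ?_
        rw [map_mul, map_intCast]
      rw [h1, GW_apply]
      have h2 : ∑ j, Φ (I (er K m l).2 (er K m l).1) j * (lamb t * X t j) =
          lamb t * phi Φ (X t) (I (er K m l).2 (er K m l).1) := phi_mul Φ (lamb t) (X t) _
      rw [h2, map_mul, map_mul, norm_mul, Real.exp_add]
      have h3 : 0 < ‖ph ψ (sg (er K m l).2 (phi Φ (X t) (I (er K m l).2 (er K m l).1)))‖ := by
        rw [norm_pos_iff]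
        intro h
        exact hY t _ (sg_inj _ (by rw [ph_inj ψ _ h, map_zero]))
      rw [Real.exp_log h3, mul_comm]
      exact mul_le_mul_of_nonneg_left (hlam t _) h3.le)
  exact key

end Pool.Agent.Y742.SF
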