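import Mathlib
import Pool.Agent.Y742.SF.Mul

/-!
Places of number fields and integrality.
-/

set_option autoImplicit false
set_option linter.unusedSectionVars false
set_option linter.unusedSimpArgs false

open Finset Filter Topology

namespace Pool.Agent.Y742.SF

open NumberField IsDedekindDomain
open Pool.Agent.TH286.GT.GrowD (sg sg_coe sg_inj)
open Pool.Agent.Y215.SK

variable {K : Type} [Field K] [NumberField K]

/-- the absolute value of a finite place -/
noncomputable def fv (v : HeightOneSpectrum (𝓞 K)) (x : K) : ℝ := FinitePlace.mk v x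

theorem fv_mul (v : HeightOneSpectrum (𝓞 K)) (x y : K) : fv v (x * y) = fv v x * fv v y :=
  map_mul (FinitePlace.mk v) x y

theorem fv_one (v : HeightOneSpectrum (𝓞 K)) : fv v (1 : K) = 1 := map_one (FinitePlace.mk v)

theorem fv_zero (v : HeightOneSpectrum (𝓞 K)) : fv v (0 : K) = 0 := map_zero (FinitePlace.mk v)

theorem fv_pow (v : HeightOneSpectrum (𝓞 K)) (x : K) (n : ℕ) : fv v (x ^ n) = fv v x ^ n :=
  map_pow (FinitePlace.mk v) x n

theorem fv_prod (v : HeightOneSpectrum (𝓞 K)) {ι : Type} (s : Finset ι) (x : ι → K) :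
    fv v (∏ i ∈ s, x i) = ∏ i ∈ s, fv v (x i) :=
  map_prod (FinitePlace.mk v) x s

theorem fv_div (v : HeightOneSpectrum (𝓞 K)) (x y : K) : fv v (x / y) = fv v x / fv v y :=
  map_div₀ (FinitePlace.mk v) x y

theorem fv_pos (v : HeightOneSpectrum (𝓞 K)) (x : K) (hx : x ≠ 0) : 0 < fv v x :=
  FinitePlace.pos_iff.2 hx

theorem fv_nonneg (v : HeightOneSpectrum (𝓞 K)) (x : K) : 0 ≤ fv v x := by
  rcases eq_or_ne x 0 with rfl | h
  · rw [fv_zero]
  · exact (fv_pos v x h).le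

theorem fv_add_le (v : HeightOneSpectrum (𝓞 K)) (x y : K) : fv v (x + y) ≤ max (fv v x) (fv v y) :=
  FinitePlace.add_le (FinitePlace.mk v) x y

theorem fv_eq (v : HeightOneSpectrum (𝓞 K)) (x : K) :
    fv v x = WithZeroMulInt.toNNReal (HeightOneSpectrum.absNorm_ne_zero v) (v.valuation K x) := by
  unfold fv
  rw [FinitePlace.mk_apply, FinitePlace.norm_embedding']

theorem fv_le_one_iff (v : HeightOneSpectrum (𝓞 K)) (x : K) :
    fv v x ≤ 1 ↔ v.valuation K x ≤ 1 := by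
  rw [fv_eq, ← WithZeroMulInt.toNNReal_le_one_iff (HeightOneSpectrum.one_lt_absNorm_nnreal v)]
  exact_mod_cast Iff.rfl

theorem fv_int (v : HeightOneSpectrum (𝓞 K)) (x : 𝓞 K) : fv v (x : K) ≤ 1 :=
  (fv_le_one_iff v _).2 (v.valuation_le_one x)

theorem mem_int (x : K) (h : ∀ v : HeightOneSpectrum (𝓞 K), fv v x ≤ 1) :
    ∃ y : 𝓞 K, (y : K) = x := by
  obtain ⟨y, hy⟩ := HeightOneSpectrum.mem_integers_of_valuation_le_one K x
    (fun v => (fv_le_one_iff v x).1 (h v))
  exact ⟨y, hy⟩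

theorem fv_eq_one_iff (v : HeightOneSpectrum (𝓞 K)) (x : 𝓞 K) :
    fv v (x : K) = 1 ↔ x ∉ v.asIdeal := by
  unfold fv
  rw [FinitePlace.mk_apply]
  exact FinitePlace.norm_eq_one_iff_notMem K v x

theorem mem_integer_iff (S : Set (HeightOneSpectrum (𝓞 K))) (x : K) :
    x ∈ S.integer K ↔ ∀ v, v ∉ S → fv v x ≤ 1 := by
  constructor
  · intro h v hv
    exact (fv_le_one_iff v x).2 (h v hv)
  · intro h v hv
    exact (fv_le_one_iff v x).1 (h v hv)

/-- generators of powers of prime ideals -/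
theorem exists_gen (v : HeightOneSpectrum (𝓞 K)) :
    ∃ U : 𝓞 K, Ideal.span {U} = v.asIdeal ^ (Fintype.card (ClassGroup (𝓞 K))) := by
  have h0 : v.asIdeal ≠ ⊥ := v.ne_bot
  let I : nonZeroDivisors (Ideal (𝓞 K)) := ⟨v.asIdeal, mem_nonZeroDivisors_of_ne_zero h0⟩
  have h1 : ClassGroup.mk0 (I ^ (Fintype.card (ClassGroup (𝓞 K)))) = 1 := by
    rw [map_pow, pow_card_eq_one]
  rw [ClassGroup.mk0_eq_one_iff] at h1
  obtain ⟨⟨U, hU⟩⟩ := h1
  refine ⟨U, ?_⟩
  rw [← Ideal.submodule_span_eq, ← hU]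
  rfl

section gens

variable (v : HeightOneSpectrum (𝓞 K)) (h : ℕ) (hh : 0 < h) (U : 𝓞 K)
  (hU : Ideal.span {U} = v.asIdeal ^ h)

include hh hU in
theorem gen_ne : U ≠ 0 := by
  rintro rfl
  have h1 : v.asIdeal ^ h = ⊥ := by
    rw [← hU, Ideal.span_singleton_eq_bot]
  exact v.ne_bot (eq_bot_iff.2 (by
    have h2 := pow_eq_zero_iff (n := h) (hh.ne') |>.1 (show v.asIdeal ^ h = 0 from h1)
    exact h2.le))

include hh hU in
theorem fv_gen_ne (w : HeightOneSpectrum (𝓞 K)) (hw : w ≠ v) : fv w (U : K) = 1 := by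
  rw [fv_eq_one_iff]
  intro hmem
  apply hw
  have h1 : v.asIdeal ^ h ≤ w.asIdeal := by
    rw [← hU, Ideal.span_singleton_le_iff_mem]
    exact hmem
  have h2 : v.asIdeal ≤ w.asIdeal := w.isPrime.le_of_pow_le h1
  have h3 := v.isMaximal.eq_of_le w.isPrime.ne_top h2
  exact (HeightOneSpectrum.ext h3).symm

/-- the product of all finite absolute values -/
theorem prod_fv (y : 𝓞 K) (hy : y ≠ 0) (s : Finset (HeightOneSpectrum (𝓞 K)))
    (hs : ∀ w, w ∉ s → fv w (y : K) = 1) :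
    ∏ w ∈ s, fv w (y : K) = (|((Algebra.norm ℤ y : ℤ) : ℝ)|)⁻¹ := by
  have h1 := FinitePlace.prod_eq_inv_abs_norm_int hy
  rw [← h1, ← finprod_comp_equiv FinitePlace.equivHeightOneSpectrum.symm]
  symm
  have h2 : (fun w : HeightOneSpectrum (𝓞 K) =>
      (FinitePlace.equivHeightOneSpectrum.symm w) ((y : 𝓞 K) : K)) = fun w => fv w (y : K) := by
    funext w
    rw [FinitePlace.equivHeightOneSpectrum_symm_apply]
    rfl
  rw [h2]
  refine finprod_eq_prod_of_mulSupport_subset _ ?_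
  intro w hw
  by_contra hws
  exact hw (hs w hws)

include hh hU in
theorem fv_gen : fv v (U : K) = ((Ideal.absNorm (Ideal.span {U}) : ℕ) : ℝ)⁻¹ := by
  classical
  have hU0 := gen_ne v h hh U hU
  have h1 := prod_fv U hU0 {v} (fun w hw => fv_gen_ne v h hh U hU w (by
    intro hwv
    exact hw (Finset.mem_singleton.2 hwv)))
  rw [Finset.prod_singleton] at h1
  rw [h1, Ideal.absNorm_span_singleton, Nat.cast_natAbs, Int.cast_abs]

include hh hU in
theorem one_lt_gen : 1 < Ideal.absNorm (Ideal.span {U}) := by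
  rw [hU, map_pow]
  exact Nat.one_lt_pow hh.ne' (HeightOneSpectrum.one_lt_absNorm v)

end gens

end Pool.Agent.Y742.SF
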