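import Mathlib
import Pool.Agent.Y742.SF.PD

/-!
The subspace theorem over number fields, for families of points with `S`-integral coordinates
along a filter.
-/

set_option autoImplicit false
set_option linter.unusedSectionVars false
set_option linter.unusedSimpArgs false

open Finset Filter Topology

namespace Pool.Agent.Y742.SF

open NumberField IsDedekindDomain
open Pool.Agent.TH286.GT.GrowD (sg sg_coe sg_inj)
open Pool.Agent.Y215.SK

variable {K : Type} [Field K] [NumberField K]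

theorem countable_nf : Countable K := by
  have h1 : K ≃ (Fin (Module.finrank ℚ K) → ℚ) := (Module.finBasis ℚ K).equivFun.toEquiv
  exact h1.injective.countable

/-- a common denominator for linear forms -/
theorem exists_scale {q n : ℕ} (Φ : Fin q → Fin n → K) :
    ∃ (c : 𝓞 K) (Ψ : Fin q → Fin n → 𝓞 K), c ≠ 0 ∧ ∀ i j, ((Ψ i j : 𝓞 K) : K) = (c : K) * Φ i j := by
  classical
  obtain ⟨b, hb⟩ := IsLocalization.exist_integer_multiples (nonZeroDivisors (𝓞 K))
    (Finset.univ : Finset (Fin q × Fin n)) (fun p => Φ p.1 p.2)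
  choose Ψ hΨ using fun p : Fin q × Fin n => hb p (Finset.mem_univ _)
  refine ⟨b, fun i j => Ψ (i, j), nonZeroDivisors.ne_zero b.2, fun i j => ?_⟩
  have h1 : algebraMap (𝓞 K) K (Ψ (i, j)) = ((b : 𝓞 K) : 𝓞 K) • Φ i j := hΨ (i, j)
  rw [Algebra.smul_def] at h1
  exact h1

variable [IsGalois ℚ K] (D : PD K)

theorem subS {α : Type} (𝓕 : Filter α) {n q : ℕ} (hn : 1 ≤ n) (Φ : Fin q → Fin n → K)
    (hΦ : ∀ i, Φ i ≠ 0)
    (J : (K ≃ₐ[ℚ] K) ⊕ Fin D.s → Fin n → Fin q)
    (hJ : ∀ v, (Matrix.of fun a j => Φ (J v a) j).det ≠ 0)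
    (N : α → ℝ) (hN : Tendsto N 𝓕 atTop) (x : α → Fin n → K)
    (hint : ∀ᶠ t in 𝓕, ∀ j, D.TInt (x t j)) (c : ℝ)
    (hsz : ∀ᶠ t in 𝓕, ∀ j v, D.av v (x t j) ≤ Real.exp (c * N t))
    (hind : ∀ d : Fin n → K, d ≠ 0 → ∀ᶠ t in 𝓕, ∑ j, d j * x t j ≠ 0) (ε : ℝ) (hε : 0 < ε) :
    ∀ᶠ t in 𝓕, -(ε * N t) ≤ ∑ v, ∑ a, Real.log (D.av v (∑ j, Φ (J v a) j * x t j)) := by
  classical
  by_contra hcon
  rw [Filter.not_eventually] at hcon
  obtain ⟨c0, Ψ, hc0, hΨ⟩ := exists_scale Φ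
  have hc0K : (c0 : K) ≠ 0 := RingOfIntegers.coe_ne_zero_iff.2 hc0
  -- constants
  obtain ⟨lU, hlU⟩ : ∃ lU : Fin D.s → ℝ, lU = fun v =>
    Real.log (Ideal.absNorm (Ideal.span {D.U v}) : ℕ) := ⟨_, rfl⟩
  have hlU0 : ∀ v, 0 < lU v := fun v => by
    rw [hlU]
    exact Real.log_pos (by exact_mod_cast one_lt_gen (D.P v) D.h D.hh (D.U v) (D.hU v))
  obtain ⟨C0, hC0⟩ : ∃ C0 : ℝ, C0 = n * ∑ v, Real.log (D.av v (c0 : K)) + n * ∑ v, lU v := ⟨_, rfl⟩
  have hctb : Countable (Fin n → K) := by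
    have := countable_nf (K := K)
    infer_instance
  obtain ⟨e, he⟩ := exists_surjective_nat (Fin n → K)
  -- the sequence
  have hex : ∀ r : ℕ, ∃ t : α, (¬ (-(ε * N t) ≤ ∑ v, ∑ a,
      Real.log (D.av v (∑ j, Φ (J v a) j * x t j)))) ∧
      (∀ j, D.TInt (x t j)) ∧ (∀ j v, D.av v (x t j) ≤ Real.exp (c * N t)) ∧
      (∀ i ∈ Finset.range (r + 1), e i ≠ 0 → ∑ j, e i j * x t j ≠ 0) ∧
      (∀ i ∈ (Finset.univ : Finset (Fin q)), ∑ j, Φ i j * x t j ≠ 0) ∧
      (max ((r : ℝ) + 1) (2 * C0 / ε) ≤ N t) := by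
    intro r
    have h1 : ∀ᶠ t in 𝓕, ∀ i ∈ Finset.range (r + 1), e i ≠ 0 → ∑ j, e i j * x t j ≠ 0 := by
      refine (Filter.eventually_all_finset _).2 fun i _ => ?_
      by_cases h : e i = 0
      · exact Filter.Eventually.of_forall fun t h' => absurd h h'
      · filter_upwards [hind _ h] with t ht _
        exact ht
    have h2 : ∀ᶠ t in 𝓕, ∀ i ∈ (Finset.univ : Finset (Fin q)), ∑ j, Φ i j * x t j ≠ 0 :=
      (Filter.eventually_all_finset _).2 fun i _ => hind _ (hΦ i)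
    exact (hcon.and_eventually (hint.and (hsz.and (h1.and (h2.and
      (hN.eventually_ge_atTop _)))))).exists
  choose τ hτ1 hτ2 hτ3 hτ4 hτ5 hτ6 using hex
  have hNr : ∀ r : ℕ, (r : ℝ) + 1 ≤ N (τ r) := fun r => (le_max_left _ _).trans (hτ6 r)
  have hN1 : ∀ r, 1 ≤ N (τ r) := fun r => by
    have := hNr r
    have : (0 : ℝ) ≤ r := Nat.cast_nonneg _
    linarith
  have hNC : ∀ r, C0 ≤ ε / 2 * N (τ r) := fun r => by
    have h1 := (le_max_right ((r : ℝ) + 1) (2 * C0 / ε)).trans (hτ6 r)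
    rw [div_le_iff₀ hε] at h1
    linarith
  have hN' : Tendsto (fun r => N (τ r)) atTop atTop := by
    refine tendsto_atTop_mono (fun r => ?_) (tendsto_natCast_atTop_atTop (R := ℝ))
    have := hNr r
    linarith
  -- clear denominators
  choose E y hE hy using fun r => D.clear (x (τ r)) (hτ2 r) (|c| * N (τ r)) (by
    intro v j
    refine (hτ3 r j (Sum.inr v)).trans ?_
    rw [Real.exp_le_exp]
    exact mul_le_mul_of_nonneg_right (le_abs_self c) (by linarith [hN1 r]))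
  obtain ⟨S, hS⟩ : ∃ S : ℕ → 𝓞 K, S = fun r => ∏ v, D.U v ^ E r v := ⟨_, rfl⟩
  have hS0 : ∀ r, S r ≠ 0 := fun r => by
    rw [hS]
    exact Finset.prod_ne_zero_iff.2 fun v _ => pow_ne_zero _ (D.U_ne v)
  have hS0K : ∀ r, ((S r : 𝓞 K) : K) ≠ 0 := fun r => RingOfIntegers.coe_ne_zero_iff.2 (hS0 r)
  have hy' : ∀ r j, ((y r j : 𝓞 K) : K) = ((S r : 𝓞 K) : K) * x (τ r) j := by
    intro r j
    rw [hS]
    exact hy r j
  -- the values of the forms
  have hphi : ∀ r i, ((phi Ψ (y r) i : 𝓞 K) : K) =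
      (c0 : K) * ((S r : 𝓞 K) : K) * ∑ j, Φ i j * x (τ r) j := by
    intro r i
    have h0 : ((phi Ψ (y r) i : 𝓞 K) : K) = ∑ j, ((Ψ i j : 𝓞 K) : K) * ((y r j : 𝓞 K) : K) := by
      unfold phi
      exact (map_sum (algebraMap (𝓞 K) K) _ _).trans
        (Finset.sum_congr rfl fun j _ => map_mul (algebraMap (𝓞 K) K) _ _)
    rw [h0, Finset.mul_sum]
    refine Finset.sum_congr rfl fun j _ => ?_
    rw [hΨ, hy' r j]
    ring
  have hphi0 : ∀ r i, phi Ψ (y r) i ≠ 0 := by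
    intro r i h
    have h1 := hphi r i
    rw [h] at h1
    have h2 : ((0 : 𝓞 K) : K) = 0 := by simp
    rw [h2] at h1
    exact mul_ne_zero (mul_ne_zero hc0K (hS0K r)) (hτ5 r i (Finset.mem_univ _)) h1.symm
  -- exponents
  choose k hk1 hk2 using fun r i => D.exps (phi Ψ (y r) i) (hphi0 r i)
  -- determinants
  have hJ' : ∀ v, (Matrix.of fun a j => Ψ (J v a) j).det ≠ 0 := by
    intro v h
    apply hJ v
    have h1 : ((Matrix.of fun a j => Ψ (J v a) j).map (algebraMap (𝓞 K) K)).det =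
        algebraMap (𝓞 K) K (Matrix.of fun a j => Ψ (J v a) j).det :=
      ((algebraMap (𝓞 K) K).map_det _).symm
    have h2 : (Matrix.of fun a j => Ψ (J v a) j).map (algebraMap (𝓞 K) K) =
        (c0 : K) • (Matrix.of fun a j => Φ (J v a) j) := by
      ext a j
      exact hΨ _ _
    rw [h, map_zero, h2, Matrix.det_smul] at h1
    exact (mul_eq_zero.1 h1).resolve_left (pow_ne_zero _ hc0K)
  -- sizes
  obtain ⟨A, hA⟩ : ∃ A : ℝ, A = (∑ v : (K ≃ₐ[ℚ] K) ⊕ Fin D.s, |Real.log (D.av v (c0 : K))|) +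
    (∑ v : (K ≃ₐ[ℚ] K) ⊕ Fin D.s, ∑ i, |Real.log (∑ j, D.av v (Φ i j) + 1)|) +
    ∑ w : (K ≃ₐ[ℚ] K) ⊕ Fin D.s, ∑ v, (|c| / lU v + 1) * |Real.log (D.av w (D.U v : K))| := ⟨_, rfl⟩
  have hA0 : 0 ≤ A := by
    rw [hA]
    refine add_nonneg (add_nonneg ?_ ?_) ?_
    · exact Finset.sum_nonneg fun _ _ => abs_nonneg _
    · exact Finset.sum_nonneg fun _ _ => Finset.sum_nonneg fun _ _ => abs_nonneg _
    · exact Finset.sum_nonneg fun _ _ => Finset.sum_nonneg fun v _ =>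
        mul_nonneg (add_nonneg (div_nonneg (abs_nonneg _) (hlU0 v).le) zero_le_one) (abs_nonneg _)
  have hav : ∀ r i v, Real.log (D.av v ((phi Ψ (y r) i : 𝓞 K) : K)) =
      Real.log (D.av v (c0 : K)) + Real.log (D.av v ((S r : 𝓞 K) : K)) +
        Real.log (D.av v (∑ j, Φ i j * x (τ r) j)) := by
    intro r i v
    rw [hphi, D.av_mul, D.av_mul, Real.log_mul (mul_pos (D.av_pos v _ hc0K)
      (D.av_pos v _ (hS0K r))).ne' (D.av_pos v _ (hτ5 r i (Finset.mem_univ _))).ne',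
      Real.log_mul (D.av_pos v _ hc0K).ne' (D.av_pos v _ (hS0K r)).ne']
  have hSlog : ∀ r v, Real.log (D.av v ((S r : 𝓞 K) : K)) ≤
      (∑ v', (|c| / lU v' + 1) * |Real.log (D.av v (D.U v' : K))|) * N (τ r) := by
    intro r v
    have hprod : ∀ (s : Finset (Fin D.s)), D.av v (∏ v' ∈ s, ((D.U v' : 𝓞 K) : K) ^ E r v') =
        ∏ v' ∈ s, D.av v ((D.U v' : 𝓞 K) : K) ^ E r v' := by
      intro s
      induction s using Finset.induction_on with
      | empty => simp [D.av_one]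
      | insert i s hi ih =>
        rw [Finset.prod_insert hi, Finset.prod_insert hi, D.av_mul, ih]
        congr 1
        induction E r i with
        | zero => simp [D.av_one]
        | succ n ih => rw [pow_succ, pow_succ, D.av_mul, ih]
    rw [hS]
    simp only
    rw [D.coe_U, hprod, Real.log_prod (fun v' _ => pow_ne_zero _ (D.av_pos v _
      (RingOfIntegers.coe_ne_zero_iff.2 (D.U_ne v'))).ne'), Finset.sum_mul]
    refine Finset.sum_le_sum fun v' _ => ?_
    rw [Real.log_pow]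
    have h1 := hE r v'
    have h2 : |(|c| * N (τ r))| = |c| * N (τ r) := abs_of_nonneg
      (mul_nonneg (abs_nonneg _) (by linarith [hN1 r]))
    rw [h2] at h1
    have h3 : (E r v' : ℝ) ≤ (|c| / lU v' + 1) * N (τ r) := by
      refine h1.trans ?_
      rw [hlU]
      simp only
      have h4 := hN1 r
      have h5 : |c| * N (τ r) / Real.log (Ideal.absNorm (Ideal.span {D.U v'}) : ℕ) =
          |c| / Real.log (Ideal.absNorm (Ideal.span {D.U v'}) : ℕ) * N (τ r) := by ring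
      rw [h5]
      linarith
    calc (E r v' : ℝ) * Real.log (D.av v ((D.U v' : 𝓞 K) : K)) ≤
        E r v' * |Real.log (D.av v ((D.U v' : 𝓞 K) : K))| :=
          mul_le_mul_of_nonneg_left (le_abs_self _) (Nat.cast_nonneg _)
      _ ≤ ((|c| / lU v' + 1) * N (τ r)) * |Real.log (D.av v ((D.U v' : 𝓞 K) : K))| :=
          mul_le_mul_of_nonneg_right h3 (abs_nonneg _)
      _ = _ := by ring
  have hsize : ∀ r i (v : (K ≃ₐ[ℚ] K) ⊕ Fin D.s),
      Real.log (D.av v ((phi Ψ (y r) i : 𝓞 K) : K)) ≤ (A + |c|) * N (τ r) := by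
    intro r i v
    rw [hav]
    have h1 : Real.log (D.av v (c0 : K)) ≤
        (∑ v : (K ≃ₐ[ℚ] K) ⊕ Fin D.s, |Real.log (D.av v (c0 : K))|) * N (τ r) := by
      refine (le_abs_self _).trans ?_
      refine (Finset.single_le_sum (f := fun v => |Real.log (D.av v (c0 : K))|)
        (fun _ _ => abs_nonneg _) (Finset.mem_univ v)).trans ?_
      exact le_mul_of_one_le_right (Finset.sum_nonneg fun _ _ => abs_nonneg _) (hN1 r)
    have h2 := hSlog r v
    have h3 : (∑ v', (|c| / lU v' + 1) * |Real.log (D.av v (D.U v' : K))|) ≤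
        ∑ w : (K ≃ₐ[ℚ] K) ⊕ Fin D.s, ∑ v', (|c| / lU v' + 1) *
          |Real.log (D.av w (D.U v' : K))| :=
      Finset.single_le_sum (f := fun w => ∑ v', (|c| / lU v' + 1) *
          |Real.log (D.av w (D.U v' : K))|)
        (fun _ _ => Finset.sum_nonneg fun v _ => mul_nonneg (add_nonneg
          (div_nonneg (abs_nonneg _) (hlU0 v).le) zero_le_one) (abs_nonneg _)) (Finset.mem_univ v)
    have h4 := mul_le_mul_of_nonneg_right h3 (by linarith [hN1 r] : 0 ≤ N (τ r))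
    have h5 : Real.log (D.av v (∑ j, Φ i j * x (τ r) j)) ≤
        |c| * N (τ r) + (∑ v : (K ≃ₐ[ℚ] K) ⊕ Fin D.s, ∑ i,
          |Real.log (∑ j, D.av v (Φ i j) + 1)|) * N (τ r) := by
      have h6 : D.av v (∑ j, Φ i j * x (τ r) j) ≤ (∑ j, D.av v (Φ i j) + 1) *
          Real.exp (|c| * N (τ r)) := by
        refine (D.av_sum_le v _ _).trans ?_
        have h7 : ∀ j ∈ (Finset.univ : Finset (Fin n)), D.av v (Φ i j * x (τ r) j) ≤
            D.av v (Φ i j) * Real.exp (|c| * N (τ r)) := by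
          intro j _
          rw [D.av_mul]
          refine mul_le_mul_of_nonneg_left ?_ (D.av_nonneg _ _)
          refine (hτ3 r j v).trans ?_
          rw [Real.exp_le_exp]
          exact mul_le_mul_of_nonneg_right (le_abs_self c) (by linarith [hN1 r])
        refine (Finset.sum_le_sum h7).trans ?_
        rw [← Finset.sum_mul]
        refine mul_le_mul_of_nonneg_right ?_ (Real.exp_pos _).le
        linarith
      have hnn : 0 ≤ ∑ j, D.av v (Φ i j) := Finset.sum_nonneg fun _ _ => D.av_nonneg _ _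
      have h8 := Real.log_le_log (D.av_pos v _ (hτ5 r i (Finset.mem_univ _))) h6
      rw [Real.log_mul (by positivity) (Real.exp_pos _).ne', Real.log_exp] at h8
      have h9 : Real.log (∑ j, D.av v (Φ i j) + 1) ≤ (∑ v : (K ≃ₐ[ℚ] K) ⊕ Fin D.s, ∑ i,
          |Real.log (∑ j, D.av v (Φ i j) + 1)|) * N (τ r) := by
        refine (le_abs_self _).trans ?_
        refine (Finset.single_le_sum (f := fun i => |Real.log (∑ j, D.av v (Φ i j) + 1)|)
          (fun _ _ => abs_nonneg _) (Finset.mem_univ i)).trans ?_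
        refine (Finset.single_le_sum (f := fun v => ∑ i, |Real.log (∑ j, D.av v (Φ i j) + 1)|)
          (fun _ _ => Finset.sum_nonneg fun _ _ => abs_nonneg _) (Finset.mem_univ v)).trans ?_
        exact le_mul_of_one_le_right (Finset.sum_nonneg fun _ _ =>
          Finset.sum_nonneg fun _ _ => abs_nonneg _) (hN1 r)
      linarith
    have h6 : (A + |c|) * N (τ r) =
        (∑ v : (K ≃ₐ[ℚ] K) ⊕ Fin D.s, |Real.log (D.av v (c0 : K))|) * N (τ r) +
        (∑ v : (K ≃ₐ[ℚ] K) ⊕ Fin D.s, ∑ i, |Real.log (∑ j, D.av v (Φ i j) + 1)|) * N (τ r) +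
        (∑ w : (K ≃ₐ[ℚ] K) ⊕ Fin D.s, ∑ v, (|c| / lU v + 1) *
          |Real.log (D.av w (D.U v : K))|) * N (τ r) + |c| * N (τ r) := by
      rw [hA]
      ring
    rw [h6]
    linarith
  -- the main inequality
  have hSsum : ∀ r, ∑ v, Real.log (D.av v ((S r : 𝓞 K) : K)) = 0 := by
    intro r
    refine D.sum_av_unit _ (hS0 r) fun w hw => ?_
    rw [hS]
    simp only
    rw [D.coe_U, fv_prod]
    refine Finset.prod_eq_one fun v _ => ?_
    rw [fv_pow, fv_gen_ne (D.P v) D.h D.hh (D.U v) (D.hU v) w (hw v), one_pow]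
  have hmain : ∀ r, ∑ v, ∑ a, Real.log (D.av v ((phi Ψ (y r) (J v a) : 𝓞 K) : K)) ≤
      n * ∑ v, Real.log (D.av v (c0 : K)) - ε * N (τ r) := by
    intro r
    have h1 := hτ1 r
    rw [not_le] at h1
    have h2 : ∑ v, ∑ a, Real.log (D.av v ((phi Ψ (y r) (J v a) : 𝓞 K) : K)) =
        n * ∑ v, Real.log (D.av v (c0 : K)) + n * ∑ v, Real.log (D.av v ((S r : 𝓞 K) : K)) +
          ∑ v, ∑ a, Real.log (D.av v (∑ j, Φ (J v a) j * x (τ r) j)) := by
      rw [Finset.mul_sum, Finset.mul_sum, ← Finset.sum_add_distrib, ← Finset.sum_add_distrib]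
      refine Finset.sum_congr rfl fun v _ => ?_
      rw [Finset.sum_congr rfl fun a _ => hav r (J v a) v, Finset.sum_add_distrib,
        Finset.sum_const, Finset.card_univ, Fintype.card_fin, nsmul_eq_mul]
      ring
    rw [h2, hSsum r, mul_zero, add_zero]
    linarith
  obtain ⟨d, hd, hfr⟩ := patK D.ψ D.cj D.hcj D.iK D.hi hn Ψ D.U D.U_ne D.U_coprime D.π D.U_pi
    (fun σ => J (Sum.inl σ)) (fun σ => hJ' _) (fun v => J (Sum.inr v)) (fun v => hJ' _)
    (A + |c|) (ε / 2) (add_nonneg hA0 (abs_nonneg _)) (by linarith) (fun r => N (τ r)) hN'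
    (fun r => by linarith [hN1 r]) (fun r i v => k r i v) y (fun r i => hk1 r i) hphi0
    (fun r i σ => hsize r i (Sum.inl σ))
    (by
      intro r
      have h1 := hmain r
      rw [Fintype.sum_sum_type] at h1
      have h2 : ∑ v, ∑ a, (-Real.log (fv (D.P v) ((phi Ψ (y r) (J (Sum.inr v) a) : 𝓞 K) : K)) -
          lU v) ≤ ∑ v, ∑ a, (k r (J (Sum.inr v) a) v : ℝ) *
            Real.log (Ideal.absNorm (Ideal.span {D.U v}) : ℕ) := by
        refine Finset.sum_le_sum fun v _ => Finset.sum_le_sum fun a _ => ?_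
        rw [hlU]
        exact hk2 r (J (Sum.inr v) a) v
      have h3 : ∑ v, ∑ a, (-Real.log (fv (D.P v) ((phi Ψ (y r) (J (Sum.inr v) a) : 𝓞 K) : K)) -
          lU v) = -∑ v, ∑ a, Real.log (fv (D.P v) ((phi Ψ (y r) (J (Sum.inr v) a) : 𝓞 K) : K)) -
            n * ∑ v, lU v := by
        rw [Finset.mul_sum, ← Finset.sum_neg_distrib, ← Finset.sum_sub_distrib]
        refine Finset.sum_congr rfl fun v _ => ?_
        rw [Finset.sum_sub_distrib, Finset.sum_neg_distrib, Finset.sum_const, Finset.card_univ,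
          Fintype.card_fin, nsmul_eq_mul]
      refine le_trans ?_ h2
      rw [h3]
      have h4 := hNC r
      rw [hC0] at h4
      have h5 : ∑ σ : K ≃ₐ[ℚ] K, ∑ a, Real.log (D.av (Sum.inl σ)
          ((phi Ψ (y r) (J (Sum.inl σ) a) : 𝓞 K) : K)) =
          ∑ σ : K ≃ₐ[ℚ] K, ∑ a, Real.log ‖ph D.ψ (sg σ (phi Ψ (y r) (J (Sum.inl σ) a)))‖ := rfl
      have h6 : ∑ v, ∑ a, Real.log (D.av (Sum.inr v)
          ((phi Ψ (y r) (J (Sum.inr v) a) : 𝓞 K) : K)) =
          ∑ v, ∑ a, Real.log (fv (D.P v) ((phi Ψ (y r) (J (Sum.inr v) a) : 𝓞 K) : K)) := rfl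
      rw [h5, h6] at h1
      linarith)
  obtain ⟨i, hi⟩ := he d
  have hge : ∀ᶠ r in atTop, i ≤ r := Filter.eventually_ge_atTop i
  obtain ⟨r, hr1, hr2⟩ := (hfr.and_eventually hge).exists
  have h1 := hτ4 r i (Finset.mem_range.2 (by omega)) (by rw [hi]; exact hd)
  apply h1
  rw [hi]
  have h2 : ∑ j, d j * ((y r j : 𝓞 K) : K) = ((S r : 𝓞 K) : K) * ∑ j, d j * x (τ r) j := by
    rw [Finset.mul_sum]
    refine Finset.sum_congr rfl fun j _ => ?_
    rw [hy' r j]
    ring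
  rw [h2] at hr1
  exact (mul_eq_zero.1 hr1).resolve_left (hS0K r)

end Pool.Agent.Y742.SF
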